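import Mathlib
import Pool.Agent.Q21.DW.Cnt
import Pool.Agent.Results.MP_d8bd92_nt.TwoTorsionByConductor
import Pool.Agent.Results.MP_d8bd92_nt.FullTwoTorsionAllExponents
import Pool.Agent.Results.MP_d8bd92_nt.ThreeIsogeny
import Pool.Agent.Results.MP_d8bd92_nt.CubicTwoDivision

set_option autoImplicit false

/-! # Szpiro's inequality for all semistable elliptic curves of random heights

Let the height of a semistable elliptic curve over `ℚ` be the least `n` with `max (|c₄|³, c₆²) ≤ n⁶`.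
We show that `|Δ| ≤ N ^ κ / K`, for every `K`, holds for ALL semistable elliptic curves over `ℚ` with a
rational point of order two (`κ > 5`), with full rational two-torsion (`κ > 27 / 8`), with a rational
three-isogeny (`κ ≥ 6`), or with a point of order two over a given cubic field (`κ ≥ 6`), whose height is
one of the numbers `n` read off from long windows of digits of a real number `α`, for almost every `α`,
or one of the integers `n` with `|n - α v_k| ≤ w_k`; and outside of exceptional sets whose Hausdorff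
dimensions are bounded. -/

namespace Pool.Agent.Results.MP_d8bd92_nt.RandomHeights

open NumberField

/-- the product of the distinct primes dividing `Δ(W)` (the conductor if `gcd(c₄, Δ) = 1`) -/
def conductor (W : WeierstrassCurve ℤ) : ℕ := ∏ p ∈ W.Δ.natAbs.primeFactors, p

/-- there is a rational point of order two: `4x³ + b₂x² + 2b₄x + b₆` has a rational root -/
def HasTwoTorsion (W : WeierstrassCurve ℤ) : Prop :=
  ∃ r : ℚ, 4 * r ^ 3 + W.b₂ * r ^ 2 + 2 * W.b₄ * r + W.b₆ = 0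

/-- all 2-torsion points are rational: `4x³ + b₂x² + 2b₄x + b₆` splits over `ℚ` -/
def FullTwoTorsion (W : WeierstrassCurve ℤ) : Prop :=
  ∃ r₁ r₂ r₃ : ℚ, ∀ x : ℚ,
    4 * x ^ 3 + W.b₂ * x ^ 2 + 2 * W.b₄ * x + W.b₆ = 4 * (x - r₁) * (x - r₂) * (x - r₃)

/-- there is a rational isogeny of degree 3 (a rational subgroup of order 3): the 3-division
polynomial `3x⁴ + b₂x³ + 3b₄x² + 3b₆x + b₈` has a rational root -/
def HasThreeIsogeny (W : WeierstrassCurve ℤ) : Prop :=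
  ∃ r : ℚ, 3 * r ^ 4 + W.b₂ * r ^ 3 + 3 * W.b₄ * r ^ 2 + 3 * W.b₆ * r + W.b₈ = 0

/-- there is a point of order two whose `x`-coordinate lies in `L` but not in `ℚ`: the 2-division
polynomial `4x³ + b₂x² + 2b₄x + b₆` has an irrational root in `L` -/
def HasPointOver (L : Type) [Field L] [NumberField L] (W : WeierstrassCurve ℤ) : Prop :=
  ∃ θ : L, (∀ r : ℚ, θ ≠ algebraMap ℚ L r) ∧
    4 * θ ^ 3 + (W.b₂ : L) * θ ^ 2 + 2 * (W.b₄ : L) * θ + (W.b₆ : L) = 0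

/-- the least natural number `n` with `|x|³ ≤ n⁶`, `y² ≤ n⁶` -/
noncomputable def size (x y : ℤ) : ℕ := sInf {n : ℕ | |x| ^ 3 ≤ (n : ℤ) ^ 6 ∧ y ^ 2 ≤ (n : ℤ) ^ 6}

/-- all integral Weierstrass curves `W` with `Δ ≠ 0` and `gcd(c₄, Δ) = 1` (the minimal models of the
semistable elliptic curves over `ℚ`) of height `n` (the least `n` with `max (|c₄|³, c₆²) ≤ n⁶`) in the
class `P` satisfy `K |Δ| ≤ N ^ κ` -/
def Szpiro (P : WeierstrassCurve ℤ → Prop) (κ : ℝ) (K n : ℕ) : Prop :=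
  ∀ W : WeierstrassCurve ℤ, W.Δ ≠ 0 → IsCoprime W.c₄ W.Δ → P W → size W.c₄ W.c₆ = n →
    (K : ℝ) * |(W.Δ : ℝ)| ≤ (conductor W : ℝ) ^ κ

/-- a continuous and piecewise linear function with `F l < 1` for `l < 16 / 9` -/
noncomputable def F (l : ℝ) : ℝ :=
  if l ≤ 2 / 3 then 4 * l / 7
  else if l ≤ 1 then (13 * l + 2) / 28
  else if l ≤ 3 / 2 then 5 * (10 * l - 1) / 84
  else if l ≤ 16 / 9 then (9 * l - 1) / 15
  else if l ≤ 2 then 1
  else l - 1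

section

lemma size_spec (x y : ℤ) : |x| ^ 3 ≤ ((size x y : ℕ) : ℤ) ^ 6 ∧ y ^ 2 ≤ ((size x y : ℕ) : ℤ) ^ 6 := by
  have h : {n : ℕ | |x| ^ 3 ≤ (n : ℤ) ^ 6 ∧ y ^ 2 ≤ (n : ℤ) ^ 6}.Nonempty := by
    have hx : 0 ≤ |x| := abs_nonneg x
    have hy : 0 ≤ |y| := abs_nonneg y
    have h5 : 1 ≤ |x| + |y| + 1 := by linarith
    refine ⟨x.natAbs + y.natAbs + 1, ?_, ?_⟩
    · push_cast
      calc |x| ^ 3 ≤ (|x| + |y| + 1) ^ 3 := pow_le_pow_left₀ hx (by linarith) 3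
        _ ≤ (|x| + |y| + 1) ^ 6 := pow_le_pow_right₀ h5 (by norm_num)
    · push_cast
      calc y ^ 2 = |y| ^ 2 := (sq_abs y).symm
        _ ≤ (|x| + |y| + 1) ^ 2 := pow_le_pow_left₀ hy (by linarith) 2
        _ ≤ (|x| + |y| + 1) ^ 6 := pow_le_pow_right₀ h5 (by norm_num)
  exact Nat.sInf_mem h

/-- the exceptional invariants -/
def Exc (P : WeierstrassCurve ℤ → Prop) (κ c₀ : ℝ) (X : ℕ) : Set (ℤ × ℤ) :=
  {q | ∃ W : WeierstrassCurve ℤ, W.Δ ≠ 0 ∧ IsCoprime W.c₄ W.Δ ∧ P W ∧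
    q = (W.c₄, W.c₆) ∧ |W.c₄| ^ 3 ≤ (X : ℤ) ^ 6 ∧ W.c₆ ^ 2 ≤ (X : ℤ) ^ 6 ∧
    c₀ * (conductor W : ℝ) ^ κ < |(W.Δ : ℝ)|}

lemma rr (P : WeierstrassCurve ℤ → Prop) (κ s : ℝ) (h0 : 0 ≤ s) (h1 : s < 1)
    (h : ∀ c₀ ε : ℝ, 0 < c₀ → 0 < ε → ∃ C : ℝ, ∀ X : ℕ, 1 ≤ X → (Exc P κ c₀ X).Finite ∧
      ((Exc P κ c₀ X).ncard : ℝ) ≤ C * (X : ℝ) ^ (s + ε)) :
    Pool.Agent.Q21.DW.RandomReals s (Szpiro P κ) := by
  refine Pool.Agent.Q21.DW.randomReals_of (B := fun K n => ¬ Szpiro P κ K n) h0 h1 (fun K => ?_)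
    (fun K n _ h2 => not_not.1 h2)
  rcases Nat.eq_zero_or_pos K with hK | hK
  · refine Pool.Agent.Q21.DW.ps_false fun n hn => hn ?_
    intro W _ _ _ _
    rw [hK, Nat.cast_zero, zero_mul]
    positivity
  · have hK' : (0 : ℝ) < K := by exact_mod_cast hK
    refine Pool.Agent.Q21.DW.ps_of (Exc P κ (1 / K)) (fun q => size q.1 q.2) _ s
      (fun ε hε => h _ ε (by positivity) hε) ?_
    intro n N _ hnN hB
    unfold Szpiro at hB
    push Not at hB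
    obtain ⟨W, h2, h2', h3, h4, h5⟩ := hB
    obtain ⟨h6, h7⟩ := size_spec W.c₄ W.c₆
    have h8 : (n : ℤ) ≤ N := by exact_mod_cast hnN
    rw [h4] at h6 h7
    refine ⟨(W.c₄, W.c₆), ⟨W, h2, h2', h3, rfl, ?_, ?_, ?_⟩, h4⟩
    · exact h6.trans (pow_le_pow_left₀ (Int.natCast_nonneg _) h8 6)
    · exact h7.trans (pow_le_pow_left₀ (Int.natCast_nonneg _) h8 6)
    · rw [one_div, inv_mul_lt_iff₀ hK']
      exact h5

lemma disc_le {X : ℕ} {W : WeierstrassCurve ℤ} (h4 : |W.c₄| ^ 3 ≤ (X : ℤ) ^ 6)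
    (h6 : W.c₆ ^ 2 ≤ (X : ℤ) ^ 6) : |(W.Δ : ℝ)| ≤ (X : ℝ) ^ 6 := by
  have h4R : |(W.c₄ : ℝ)| ^ 3 ≤ (X : ℝ) ^ 6 := by exact_mod_cast h4
  have h6R : (W.c₆ : ℝ) ^ 2 ≤ (X : ℝ) ^ 6 := by exact_mod_cast h6
  have hrel : 1728 * (W.Δ : ℝ) = (W.c₄ : ℝ) ^ 3 - (W.c₆ : ℝ) ^ 2 := by
    exact_mod_cast W.c_relation
  have h1 : |1728 * (W.Δ : ℝ)| ≤ (X : ℝ) ^ 6 + (X : ℝ) ^ 6 := by
    rw [hrel]
    refine (abs_sub _ _).trans ?_
    rw [abs_pow, abs_of_nonneg (sq_nonneg (W.c₆ : ℝ))]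
    linarith
  rw [abs_mul, abs_of_pos (by norm_num : (0 : ℝ) < 1728)] at h1
  have : 0 ≤ (X : ℝ) ^ 6 := by positivity
  linarith

lemma two (κ : ℝ) (hκ : 0 < κ) (K ε : ℝ) (hK : 0 < K) (hε : 0 < ε) :
    ∃ C : ℝ, ∀ X : ℕ, 1 ≤ X → (Exc HasTwoTorsion κ K X).Finite ∧
      ((Exc HasTwoTorsion κ K X).ncard : ℝ) ≤ C * (X : ℝ) ^ (5 / κ + ε) := by
  obtain ⟨C, h⟩ := TwoTorsionByConductor.result ε hε
  refine ⟨|C| * ((1 / K) ^ (1 / κ)) ^ ((5 : ℝ) / 6), fun X hX => ?_⟩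
  have hX0 : (0 : ℝ) < X := by exact_mod_cast hX
  obtain ⟨h1, h2⟩ := h κ K (((X : ℝ) ^ 6 / K) ^ (1 / κ)) X hκ hK (by positivity) hX
  have hsub : Exc HasTwoTorsion κ K X ⊆
      TwoTorsionByConductor.Exceptional κ K (((X : ℝ) ^ 6 / K) ^ (1 / κ)) X := by
    rintro q ⟨W, q1, q2, q3, q4, q5, q6, q7⟩
    refine ⟨W, q1, q2, q3, q4, q5, q6, ?_, q7⟩
    have h7 : (conductor W : ℝ) ^ κ ≤ (X : ℝ) ^ 6 / K := by
      rw [le_div_iff₀ hK, mul_comm]
      exact q7.le.trans (disc_le q5 q6)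
    have h8 : (conductor W : ℝ) = ((conductor W : ℝ) ^ κ) ^ (1 / κ) := by
      rw [← Real.rpow_mul (Nat.cast_nonneg _), mul_one_div_cancel hκ.ne', Real.rpow_one]
    show (conductor W : ℝ) ≤ ((X : ℝ) ^ 6 / K) ^ (1 / κ)
    rw [h8]
    exact Real.rpow_le_rpow (by positivity) h7 (by positivity)
  refine ⟨h1.subset hsub, ?_⟩
  have h3 : ((Exc HasTwoTorsion κ K X).ncard : ℝ) ≤
      ((TwoTorsionByConductor.Exceptional κ K (((X : ℝ) ^ 6 / K) ^ (1 / κ)) X).ncard : ℝ) := by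
    exact_mod_cast Set.ncard_le_ncard hsub h1
  refine h3.trans (h2.trans ?_)
  have h4 : (((X : ℝ) ^ 6 / K) ^ (1 / κ)) ^ ((5 : ℝ) / 6) =
      ((1 / K) ^ (1 / κ)) ^ ((5 : ℝ) / 6) * (X : ℝ) ^ (5 / κ) := by
    rw [div_eq_mul_one_div, mul_comm, Real.mul_rpow (by positivity) (by positivity),
      Real.mul_rpow (by positivity) (by positivity)]
    congr 1
    rw [← Real.rpow_natCast, ← Real.rpow_mul hX0.le, ← Real.rpow_mul hX0.le]
    congr 1
    push_cast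
    ring
  rw [min_self, h4, Real.rpow_add hX0]
  calc C * (((1 / K) ^ (1 / κ)) ^ ((5 : ℝ) / 6) * (X : ℝ) ^ (5 / κ)) * (X : ℝ) ^ ε
      ≤ |C| * (((1 / K) ^ (1 / κ)) ^ ((5 : ℝ) / 6) * (X : ℝ) ^ (5 / κ)) * (X : ℝ) ^ ε := by
        refine mul_le_mul_of_nonneg_right ?_ (by positivity)
        exact mul_le_mul_of_nonneg_right (le_abs_self C) (by positivity)
    _ = |C| * ((1 / K) ^ (1 / κ)) ^ ((5 : ℝ) / 6) * ((X : ℝ) ^ (5 / κ) * (X : ℝ) ^ ε) := by ring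

lemma F_lt {l : ℝ} (h0 : 0 ≤ l) (hl : l < 16 / 9) : 0 ≤ F l ∧ F l < 1 := by
  unfold F
  split_ifs with h1 h2 h3 h4 <;> constructor <;> linarith

end

/-- **Theorem.** In each of the following cases `K |Δ| ≤ N ^ κ` holds for every `K`, for ALL the
semistable elliptic curves over `ℚ` of the class with a height in the long windows belonging to a real
number, in the sense of `RandomReals s`, with the exponent `s < 1`:
rational point of order two, `κ > 5`, `s = 5 / κ`;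
full rational two-torsion, `κ > 27 / 8`, `s = F (6 / κ)` (`15 / 28` for `κ = 6`);
rational isogeny of degree three, `κ ≥ 6`, `s = min (9/11) (2/7 + 24/(7κ))`;
point of order two over the cubic field `L`, not over `ℚ`, `κ ≥ 6`,
`s = min (1/8 + 9/(2κ)) (11/(2κ))`. -/
theorem result :
    (∀ κ : ℝ, 5 < κ → 5 / κ < 1 ∧
      Pool.Agent.Q21.DW.RandomReals (5 / κ) (Szpiro HasTwoTorsion κ)) ∧
    (∀ κ : ℝ, 27 / 8 < κ → F (6 / κ) < 1 ∧
      Pool.Agent.Q21.DW.RandomReals (F (6 / κ)) (Szpiro FullTwoTorsion κ)) ∧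
    (∀ κ : ℝ, 6 ≤ κ → min (9 / 11) (2 / 7 + 24 / (7 * κ)) < 1 ∧
      Pool.Agent.Q21.DW.RandomReals (min (9 / 11) (2 / 7 + 24 / (7 * κ)))
        (Szpiro HasThreeIsogeny κ)) ∧
    (∀ (L : Type) [Field L] [NumberField L], Module.finrank ℚ L = 3 → ∀ κ : ℝ, 6 ≤ κ →
      min (1 / 8 + 9 / (2 * κ)) (11 / (2 * κ)) < 1 ∧
      Pool.Agent.Q21.DW.RandomReals (min (1 / 8 + 9 / (2 * κ)) (11 / (2 * κ)))
        (Szpiro (HasPointOver L) κ)) := by
  refine ⟨fun κ hκ => ?_, fun κ hκ => ?_, fun κ hκ => ?_, fun L _ _ hL κ hκ => ?_⟩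
  · have h1 : 5 / κ < 1 := by
      rw [div_lt_one (by linarith)]
      exact hκ
    exact ⟨h1, rr HasTwoTorsion κ _ (by positivity) h1
      (fun K ε hK hε => two κ (by linarith) K ε hK hε)⟩
  · have hκ0 : 0 < κ := by linarith
    have h1 : 6 / κ < 16 / 9 := by
      rw [div_lt_iff₀ hκ0]
      linarith
    obtain ⟨h2, h3⟩ := F_lt (show 0 ≤ 6 / κ by positivity) h1
    refine ⟨h3, rr FullTwoTorsion κ _ h2 h3 (fun K ε hK hε => ?_)⟩
    exact FullTwoTorsionAllExponents.result κ K ε (by linarith) hK hε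
  · have hκ0 : 0 < κ := by linarith
    have h1 : min (9 / 11) (2 / 7 + 24 / (7 * κ)) < 1 :=
      lt_of_le_of_lt (min_le_left _ _) (by norm_num)
    refine ⟨h1, rr HasThreeIsogeny κ _ (by positivity) h1 (fun K ε hK hε => ?_)⟩
    exact ThreeIsogeny.result κ K ε hκ hK hε
  · have hκ0 : 0 < κ := by linarith
    have h1 : min (1 / 8 + 9 / (2 * κ)) (11 / (2 * κ)) < 1 := by
      refine lt_of_le_of_lt (min_le_right _ _) ?_
      rw [div_lt_one (by positivity)]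
      linarith
    refine ⟨h1, rr (HasPointOver L) κ _ (by positivity) h1 (fun K ε hK hε => ?_)⟩
    exact CubicTwoDivision.result L hL κ K ε hκ hK hε

end Pool.Agent.Results.MP_d8bd92_nt.RandomHeights
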